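import Mathlib
import Pool.Agent.Q130.NF.Pub

/-!
# Asymptotically taming closed forms

`X` is a closed manifold with a continuous almost complex structure `J`, `K` is a closed subset
with small components and `τ` is a two-form taming `J`, not necessarily closed. Then `K` has a
neighbourhood `W` such that for every `δ > 0` there are `ε > 0` and an exact form `dα`, depending
only on `δ`, such that for every closed two-form `σ` with `σ(v, Jv) ≥ - ε τ(v, Jv)` everywhere
and `σ(v, Jv) ≥ δ τ(v, Jv)` outside `W`, the form `σ + dα` is a symplectic form taming `J`. The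
form `σ` may be negative on all of `W`, and there is no condition on its size or on its class.
-/

set_option autoImplicit false

open Set
open scoped Manifold ContDiff

namespace Pool.Agent.Results.MP_9986fc_gt.AsymptoticTaming

open Pool.Agent.Y501.SYP

theorem result (d : ℕ) (X : Type) [TopologicalSpace X] [ChartedSpace (ES d) X]
    [IsManifold 𝓘(ℝ, ES d) ∞ X] [CompactSpace X] [T2Space X]
    (J : End (ES d) X) (hJ : IsAlmostComplex J) (K : Set X) (hK : IsClosed K)
    (hsmall : ∀ z ∈ K, SmallAll J (connectedComponentIn K z) z)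
    (τ : Form (ES d) X 2) (hτ : IsSmooth τ) (hτt : ∀ x, TamesAt τ J x) :
    ∃ W : Set X, IsOpen W ∧ K ⊆ W ∧ ∀ δ : ℝ, 0 < δ →
      ∃ (α : Form (ES d) X 1) (ρ : Form (ES d) X 2) (ε : ℝ), IsSmooth α ∧ IsSmooth ρ ∧
        IsD α ρ ∧ 0 < ε ∧ ∀ σ : Form (ES d) X 2, IsSmooth σ → IsClosedForm σ →
          (∀ (x : X) (v : TangentSpace 𝓘(ℝ, ES d) x), -ε * qd τ J x v ≤ qd σ J x v) →
          (∀ x, x ∉ W → ∀ v : TangentSpace 𝓘(ℝ, ES d) x, δ * qd τ J x v ≤ qd σ J x v) →
          IsTamingSymplectic (addF σ ρ) J :=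
  Pool.Agent.Q130.NF.uniform J hJ K hK hsmall τ hτ hτt

end Pool.Agent.Results.MP_9986fc_gt.AsymptoticTaming
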